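import Pool.Agent.helper73.BS.Spec

/-!
# Row bs:LC: a lattice lemma
-/

set_option autoImplicit false
set_option linter.unusedVariables false

namespace Pool.Agent.BS

open Matrix Module Pool.Agent.UG Pool.Agent.H48SL Pool.Agent.SHL

open Polynomial in
theorem LC_poly (f : ℤ[X]) (hf : f.Monic) (m : ℕ) (hm : 1 ≤ m) :
    ∃ a b : ℕ, a < b ∧ ∃ g q : ℤ[X], X ^ b - X ^ a = f * q + C (m : ℤ) * g := by
  have : NeZero m := ⟨by omega⟩
  set φ : ℤ →+* ZMod m := Int.castRingHom (ZMod m) with hφ
  have hfm : (f.map φ).Monic := hf.map φ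
  have hfin : Module.Finite (ZMod m) (AdjoinRoot (f.map φ)) := hfm.finite_adjoinRoot
  have hfin' : Finite (AdjoinRoot (f.map φ)) := Module.finite_of_finite (ZMod m)
  obtain ⟨a, b, hab, hr⟩ := Finite.exists_ne_map_eq_of_infinite
    (fun i : ℕ => (AdjoinRoot.root (f.map φ)) ^ i)
  wlog h : a < b generalizing a b with H
  · exact H b a hab.symm hr.symm (lt_of_le_of_ne (not_lt.1 h) hab.symm)
  refine ⟨a, b, h, ?_⟩
  have h1 : AdjoinRoot.mk (f.map φ) (X ^ b - X ^ a) = 0 := by
    rw [map_sub, map_pow, map_pow, AdjoinRoot.mk_X]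
    exact sub_eq_zero.2 hr.symm
  rw [AdjoinRoot.mk_eq_zero] at h1
  obtain ⟨q', hq'⟩ := h1
  obtain ⟨q, hq⟩ := Polynomial.map_surjective φ (ZMod.ringHom_surjective φ) q'
  have h2 : (X ^ b - X ^ a - f * q : ℤ[X]).map φ = 0 := by
    rw [Polynomial.map_sub, Polynomial.map_sub, Polynomial.map_pow, Polynomial.map_pow, map_X,
      Polynomial.map_mul, hq, hq', sub_self]
  have h3 : C (m : ℤ) ∣ (X ^ b - X ^ a - f * q : ℤ[X]) := by
    rw [Polynomial.C_dvd_iff_dvd_coeff]
    intro i
    have h4 := congrArg (fun p => Polynomial.coeff p i) h2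
    simp only [coeff_map, coeff_zero] at h4
    rw [hφ, eq_intCast, ZMod.intCast_zmod_eq_zero_iff_dvd] at h4
    exact h4
  obtain ⟨g, hg⟩ := h3
  refine ⟨g, q, ?_⟩
  rw [← hg]
  ring

theorem LC : LC_stmt := by
  intro V _ _ A B hAB hBA hA hB L hLA hLB x m hm hx
  obtain ⟨f, hf, hfA⟩ := hA
  obtain ⟨a, b, hab, g, q, hg⟩ := LC_poly f hf m hm
  have hfA' : Polynomial.aeval A f = 0 := hfA
  have hpow : ∀ i : ℕ, ∀ y ∈ L, (A ^ i) y ∈ L := by
    intro i
    induction i with
    | zero => intro y hy; simpa using hy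
    | succ i ih =>
      intro y hy
      rw [pow_succ', Module.End.mul_apply]
      exact hLA _ (ih y hy)
  have hpowB : ∀ i : ℕ, ∀ y ∈ L, (B ^ i) y ∈ L := by
    intro i
    induction i with
    | zero => intro y hy; simpa using hy
    | succ i ih =>
      intro y hy
      rw [pow_succ', Module.End.mul_apply]
      exact hLB _ (ih y hy)
  have hpoly : ∀ p : Polynomial ℤ, ∀ y ∈ L, (Polynomial.aeval A p) y ∈ L := by
    intro p
    induction p using Polynomial.induction_on' with
    | add p q hp hq =>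
      intro y hy
      rw [map_add, LinearMap.add_apply]
      exact L.add_mem (hp y hy) (hq y hy)
    | monomial i c =>
      intro y hy
      rw [Polynomial.aeval_monomial, Module.End.mul_apply]
      have h1 : (algebraMap ℤ (Module.End ℚ V) c) ((A ^ i) y) = c • (A ^ i) y := by
        rw [Algebra.algebraMap_eq_smul_one, LinearMap.smul_apply, Module.End.one_apply]
      rw [h1]
      exact L.zsmul_mem (hpow i y hy) c
  -- the basic congruence
  have hkey : ∀ y : V, m • y ∈ L → (A ^ (b - a)) y - y ∈ L := by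
    intro y hy
    have h1 : (A ^ b) y - (A ^ a) y ∈ L := by
      have h2 := congrArg (fun p => (Polynomial.aeval A p) y) hg
      simp only [map_sub, map_pow, Polynomial.aeval_X, map_add, map_mul, hfA', zero_mul, zero_add,
        LinearMap.sub_apply, Polynomial.aeval_C, Module.End.mul_apply] at h2
      rw [h2]
      have h3 : (algebraMap ℤ (Module.End ℚ V) (m : ℤ)) ((Polynomial.aeval A g) y) =
          (Polynomial.aeval A g) (m • y) := by
        rw [Algebra.algebraMap_eq_smul_one, LinearMap.smul_apply, Module.End.one_apply, map_nsmul,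
          natCast_zsmul]
      rw [h3]
      exact hpoly g _ hy
    have h4 := hpowB a _ h1
    have h5 : B ^ a * A ^ a = 1 := by
      have hc : Commute B A := by
        show B * A = A * B
        rw [hAB, hBA]
      rw [← hc.mul_pow, hBA, one_pow]
    have h6 : (B ^ a) ((A ^ a) y) = y := by
      rw [← Module.End.mul_apply, h5, Module.End.one_apply]
    have h7 : (B ^ a) ((A ^ b) y) = (A ^ (b - a)) y := by
      have h8 : A ^ b = A ^ a * A ^ (b - a) := by
        rw [← pow_add]
        congr 1
        omega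
      rw [h8, Module.End.mul_apply, ← Module.End.mul_apply (B ^ a), h5, Module.End.one_apply]
    rw [map_sub, h6, h7] at h4
    exact h4
  set j₀ := b - a with hj₀
  have hj₀1 : 1 ≤ j₀ := by omega
  refine ⟨m * j₀, Nat.mul_pos (by omega) (by omega), ?_⟩
  set y : V := ∑ r ∈ Finset.range j₀, (A ^ r) x with hy
  have hmy : m • y ∈ L := by
    rw [hy, Finset.smul_sum]
    refine L.sum_mem fun r _ => ?_
    rw [← map_nsmul]
    exact hpow r _ hx
  have hq : ∀ i : ℕ, (A ^ (i * j₀)) y - y ∈ L := by
    intro i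
    induction i with
    | zero => simp
    | succ i ih =>
      have h1 : (A ^ ((i + 1) * j₀)) y - y = (A ^ j₀) ((A ^ (i * j₀)) y - y) + ((A ^ j₀) y - y) := by
        rw [map_sub, ← Module.End.mul_apply, ← pow_add]
        have : j₀ + i * j₀ = (i + 1) * j₀ := by ring
        rw [this]
        abel
      rw [h1]
      exact L.add_mem (hpow _ _ ih) (hkey y hmy)
  have hsum : ∀ i : ℕ, ∑ l ∈ Finset.range (i * j₀), (A ^ l) x =
      ∑ l ∈ Finset.range i, (A ^ (l * j₀)) y := by
    intro i
    induction i with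
    | zero => simp
    | succ i ih =>
      have h1 : (i + 1) * j₀ = i * j₀ + j₀ := by ring
      rw [h1, Finset.sum_range_add, ih, Finset.sum_range_succ]
      congr 1
      rw [hy, map_sum]
      refine Finset.sum_congr rfl fun r _ => ?_
      rw [pow_add, Module.End.mul_apply]
  rw [hsum]
  have h9 : ∑ l ∈ Finset.range m, (A ^ (l * j₀)) y =
      (∑ l ∈ Finset.range m, ((A ^ (l * j₀)) y - y)) + m • y := by
    rw [Finset.sum_sub_distrib, Finset.sum_const, Finset.card_range]
    abel
  rw [h9]
  exact L.add_mem (L.sum_mem fun l _ => hq l) hmy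

end Pool.Agent.BS
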