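import Pool.Agent.helper73.BS.Spec

/-!
# Row bs:PW: powers
-/

set_option autoImplicit false
set_option linter.unusedVariables false

namespace Pool.Agent.BS

open Matrix Module Pool.Agent.UG Pool.Agent.H48SL Pool.Agent.SHL

theorem PW_exp0 {n : ℕ} : IsNilpotent.exp (0 : MQ n) = 1 := by
  have h1 : (0 : MQ n) ^ 1 = 0 := pow_one 0
  rw [IsNilpotent.exp_eq_sum h1, Finset.sum_range_one, Nat.factorial_zero, Nat.cast_one, inv_one,
    pow_zero, one_smul]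

section fil

variable {n : ℕ} {W : ℕ → Submodule ℚ (VQ n)}

theorem PW_fil_le (hW : Monotone W) {i j : ℕ} (h : i ≤ j) : fil W j ≤ fil W i := by
  intro X hX a w hw
  exact hW (by omega) (hX a w hw)

theorem PW_fil_pow {i : ℕ} {X : MQ n} (hX : X ∈ fil W i) (r : ℕ) : X ^ r ∈ fil W (r * i) := by
  induction r with
  | zero =>
    intro a w hw
    rw [pow_zero, Matrix.one_mulVec, zero_mul]
    exact hw
  | succ r ih =>
    rw [pow_succ, add_mul, one_mul]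
    exact fil_mul ih hX

theorem PW_fil_one : (1 : MQ n) ∈ fil W 0 := by
  intro a w hw
  rw [Matrix.one_mulVec]
  exact hw

theorem PW_mul_sub {i : ℕ} (hW : Monotone W) (hi : 1 ≤ i) {a b Y Z : MQ n} (hY : Y ∈ fil W i)
    (hZ : Z ∈ fil W i) (ha : a - 1 - Y ∈ fil W (i + 1)) (hb : b - 1 - Z ∈ fil W (i + 1)) :
    a * b - 1 - (Y + Z) ∈ fil W (i + 1) := by
  have h1 : a * b - 1 - (Y + Z) = (a - 1 - Y) + (b - 1 - Z) +
      ((a - 1 - Y) + Y) * ((b - 1 - Z) + Z) := by noncomm_ring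
  rw [h1]
  refine add_mem (add_mem ha hb) ?_
  refine PW_fil_le hW (show i + 1 ≤ i + i by omega) (fil_mul ?_ ?_)
  · exact add_mem (fil_anti hW i ha) hY
  · exact add_mem (fil_anti hW i hb) hZ

theorem PW_inv_sub {i : ℕ} (hW : Monotone W) (hi : 1 ≤ i) {a b Y : MQ n} (hY : Y ∈ fil W i)
    (ha : a - 1 - Y ∈ fil W (i + 1)) (hb : b ∈ fil W 0) (hab : a * b = 1) :
    b - 1 - (-Y) ∈ fil W (i + 1) := by
  have h0 : (a - 1) * b = 1 - b := by rw [sub_mul, hab, one_mul]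
  have h1 : b - 1 - (-Y) = (a - 1) * (a - 1) * b - (a - 1 - Y) := by
    rw [mul_assoc, h0, mul_sub, h0]
    noncomm_ring
  rw [h1]
  refine sub_mem ?_ ha
  have h2 : a - 1 ∈ fil W i := by
    have : a - 1 = (a - 1 - Y) + Y := by abel
    rw [this]
    exact add_mem (fil_anti hW i ha) hY
  exact PW_fil_le hW (show i + 1 ≤ i + i + 0 by omega) (fil_mul (fil_mul h2 h2) hb)

theorem PW_exp_sub {i : ℕ} (hW : Monotone W) (hi : 1 ≤ i) {Y : MQ n} (hY : Y ∈ fil W i)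
    (hnil : IsNilpotent Y) : IsNilpotent.exp Y - 1 - Y ∈ fil W (i + 1) := by
  obtain ⟨m, hm⟩ := hnil
  have hm2 : Y ^ (m + 2) = 0 := by rw [pow_add, hm, zero_mul]
  rw [IsNilpotent.exp_eq_sum hm2, Finset.sum_range_succ', Finset.sum_range_succ']
  simp only [zero_add, Nat.factorial_one, Nat.cast_one, inv_one, pow_one, one_smul,
    Nat.factorial_zero, pow_zero]
  rw [add_sub_cancel_right, add_sub_cancel_right]
  refine Submodule.sum_mem _ fun r _ => Submodule.smul_mem _ _ ?_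
  refine PW_fil_le hW ?_ (PW_fil_pow hY (r + 1 + 1))
  nlinarith

theorem PW_aeval0 {i : ℕ} (hW : Monotone W) {N : MQ n} (hN : N ∈ fil W i) (R : Polynomial ℚ) :
    Polynomial.aeval N R ∈ fil W 0 := by
  induction R using Polynomial.induction_on' with
  | add p q hp hq =>
    rw [map_add]
    exact add_mem hp hq
  | monomial j c =>
    rw [Polynomial.aeval_monomial, Algebra.algebraMap_eq_smul_one, smul_mul_assoc, one_mul]
    exact Submodule.smul_mem _ _ (PW_fil_le hW (Nat.zero_le _) (PW_fil_pow hN j))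

theorem PW_aeval {i : ℕ} (hW : Monotone W) {N : MQ n} (hN : N ∈ fil W i) (Q : Polynomial ℚ)
    (hQ : Polynomial.X ^ 2 ∣ Q - Polynomial.X) : Polynomial.aeval N Q ∈ fil W i := by
  obtain ⟨R, hR⟩ := hQ
  have h1 : Q = Polynomial.X + Polynomial.X * (Polynomial.X * R) := by
    rw [← mul_assoc, ← pow_two, ← hR]
    ring
  rw [h1, map_add, map_mul, Polynomial.aeval_X]
  exact add_mem hN (fil_mul hN (PW_aeval0 hW hN _))

end fil

/-- conjugation by an element of `SL(n, ℤ)` -/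
noncomputable def PW_Ad {n : ℕ} (h : SLZ n) : Module.End ℚ (MQ n) :=
  LinearMap.mulLeft ℚ (qg h) ∘ₗ LinearMap.mulRight ℚ (qg h⁻¹)

theorem PW_Ad_apply {n : ℕ} (h : SLZ n) (Y : MQ n) : PW_Ad h Y = qg h * Y * qg h⁻¹ := by
  show qg h * (Y * qg h⁻¹) = _
  rw [mul_assoc]

theorem PW_Ad_mul {n : ℕ} (g h : SLZ n) : PW_Ad g * PW_Ad h = PW_Ad (g * h) := by
  apply LinearMap.ext
  intro Y
  rw [Module.End.mul_apply, PW_Ad_apply, PW_Ad_apply, PW_Ad_apply, _root_.mul_inv_rev, qg_mul,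
    qg_mul]
  noncomm_ring

theorem PW_Ad_one {n : ℕ} : PW_Ad (1 : SLZ n) = 1 := by
  apply LinearMap.ext
  intro Y
  rw [PW_Ad_apply, inv_one, qg_one, one_mul, mul_one, Module.End.one_apply]

theorem PW_Ad_pow {n : ℕ} (h : SLZ n) (l : ℕ) : PW_Ad h ^ l = PW_Ad (h ^ l) := by
  induction l with
  | zero => rw [pow_zero, pow_zero, PW_Ad_one]
  | succ l ih => rw [pow_succ, pow_succ, ih, PW_Ad_mul]

/-- conjugation of integral matrices -/
noncomputable def PW_AdZ {n : ℕ} (h : SLZ n) : Module.End ℤ (Matrix (Fin n) (Fin n) ℤ) :=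
  LinearMap.mulLeft ℤ (h : Matrix (Fin n) (Fin n) ℤ) ∘ₗ
    LinearMap.mulRight ℤ ((h⁻¹ : SLZ n) : Matrix (Fin n) (Fin n) ℤ)

theorem PW_cast {n : ℕ} (h : SLZ n) (Y : Matrix (Fin n) (Fin n) ℤ) :
    PW_Ad h ((Int.castRingHom ℚ).mapMatrix Y) = (Int.castRingHom ℚ).mapMatrix (PW_AdZ h Y) := by
  show qg h * ((Int.castRingHom ℚ).mapMatrix Y * qg h⁻¹) = (Int.castRingHom ℚ).mapMatrix
    ((h : Matrix (Fin n) (Fin n) ℤ) * (Y * ((h⁻¹ : SLZ n) : Matrix (Fin n) (Fin n) ℤ)))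
  rw [map_mul, map_mul]
  rfl

theorem PW_cast_aeval {n : ℕ} (h : SLZ n) (p : Polynomial ℤ) (Y : Matrix (Fin n) (Fin n) ℤ) :
    (Polynomial.aeval (PW_Ad h) p) ((Int.castRingHom ℚ).mapMatrix Y) =
      (Int.castRingHom ℚ).mapMatrix ((Polynomial.aeval (PW_AdZ h) p) Y) := by
  induction p using Polynomial.induction_on' with
  | add p q hp hq =>
    rw [map_add, map_add, LinearMap.add_apply, LinearMap.add_apply, hp, hq, map_add]
  | monomial j c =>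
    have h1 : ∀ j : ℕ, (PW_Ad h ^ j) ((Int.castRingHom ℚ).mapMatrix Y) =
        (Int.castRingHom ℚ).mapMatrix ((PW_AdZ h ^ j) Y) := by
      intro j
      induction j with
      | zero => rfl
      | succ j ih =>
        rw [pow_succ', pow_succ', Module.End.mul_apply, Module.End.mul_apply, ih, PW_cast]
    rw [Polynomial.aeval_monomial, Polynomial.aeval_monomial, Module.End.mul_apply,
      Module.End.mul_apply, h1, Algebra.algebraMap_eq_smul_one, Algebra.algebraMap_eq_smul_one,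
      LinearMap.smul_apply, LinearMap.smul_apply, Module.End.one_apply, Module.End.one_apply,
      map_zsmul]

theorem PW_integral {n : ℕ} (h : SLZ n) : IsIntegral ℤ (PW_Ad h) := by
  obtain ⟨p, hp, hp0⟩ := LinearMap.exists_monic_and_aeval_eq_zero ℤ (PW_AdZ h)
  refine ⟨p, hp, ?_⟩
  show Polynomial.aeval (PW_Ad h) p = 0
  apply LinearMap.ext
  intro Y
  rw [Matrix.matrix_eq_sum_single Y, map_sum, LinearMap.zero_apply]
  refine Finset.sum_eq_zero fun i _ => ?_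
  rw [map_sum]
  refine Finset.sum_eq_zero fun j _ => ?_
  have h1 : Matrix.single i j (Y i j) = (Y i j) • (Matrix.single i j (1 : ℚ)) := by
    rw [Matrix.smul_single, smul_eq_mul, mul_one]
  have h2 : (Matrix.single i j (1 : ℚ)) = (Int.castRingHom ℚ).mapMatrix (Matrix.single i j (1 : ℤ)) := by
    rw [RingHom.mapMatrix_apply, Matrix.map_single, map_one]
  rw [h1, h2, map_smul, PW_cast_aeval, hp0, LinearMap.zero_apply, map_zero, smul_zero]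

section main

variable {n : ℕ} {P : Subgroup (SLZ n)} {𝔲 : Submodule ℚ (MQ n)} {k : ℕ}
  {W : ℕ → Submodule ℚ (VQ n)}

theorem PW_stab (h : FS P 𝔲 k W) {g : SLZ n} (hg : g ∈ P) : qg g ∈ fil W 0 :=
  fun a w hw => h.stab g hg a w hw

theorem PW_one (h : FS P 𝔲 k W) {X : MQ n} (hX : X ∈ 𝔲) : X ∈ fil W 1 :=
  (mem_fil_one h.bot).2 (h.down X hX)

theorem PW_nil (h : FS P 𝔲 k W) {X : MQ n} (hX : X ∈ 𝔲) : IsNilpotent X :=
  fil_one_nil h.bot h.top (PW_one h hX)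

theorem PW_exp_neg (h : FS P 𝔲 k W) {X : MQ n} (hX : X ∈ 𝔲) :
    IsNilpotent.exp X * IsNilpotent.exp (-X) = 1 := by
  rw [← IsNilpotent.exp_add_of_commute (Commute.neg_right (Commute.refl X)) (PW_nil h hX)
    (PW_nil h hX).neg, add_neg_cancel, PW_exp0]

theorem PW_Ad_fil (h : FS P 𝔲 k W) {g : SLZ n} (hg : g ∈ P) {i : ℕ} {Y : MQ n} (hY : Y ∈ fil W i) :
    qg g * Y * qg g⁻¹ ∈ fil W i := by
  have h1 := fil_mul (fil_mul (PW_stab h hg) hY) (PW_stab h (P.inv_mem hg))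
  rwa [zero_add, add_zero] at h1

theorem PW_exp_conj (g : SLZ n) {X : MQ n} (hX : IsNilpotent X) :
    IsNilpotent.exp (qg g * X * qg g⁻¹) = qg g * IsNilpotent.exp X * qg g⁻¹ := by
  have hpow : ∀ r : ℕ, (qg g * X * qg g⁻¹) ^ r = qg g * X ^ r * qg g⁻¹ := by
    intro r
    induction r with
    | zero => rw [pow_zero, pow_zero, mul_one, qg_mul_inv]
    | succ r ih =>
      rw [pow_succ, ih, pow_succ]
      have : qg g * X ^ r * qg g⁻¹ * (qg g * X * qg g⁻¹) =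
          qg g * X ^ r * (qg g⁻¹ * qg g) * X * qg g⁻¹ := by noncomm_ring
      rw [this, qg_inv_mul, mul_one]
      noncomm_ring
  obtain ⟨m, hm⟩ := hX
  have hm' : (qg g * X * qg g⁻¹) ^ m = 0 := by rw [hpow, hm, mul_zero, zero_mul]
  rw [IsNilpotent.exp_eq_sum hm, IsNilpotent.exp_eq_sum hm', Finset.mul_sum, Finset.sum_mul]
  refine Finset.sum_congr rfl fun r _ => ?_
  rw [hpow, mul_smul_comm, smul_mul_assoc]

theorem PW_conj (h : FS P 𝔲 k W) {g : SLZ n} (hg : g ∈ P) {x : MQ n} (hx : x ∈ Ex 𝔲) :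
    qg g * x * qg g⁻¹ ∈ Ex 𝔲 := by
  obtain ⟨X, hX, rfl⟩ := hx
  exact ⟨_, h.conj g hg X hX, (PW_exp_conj g (PW_nil h hX)).symm⟩

theorem PW_mul (h : FS P 𝔲 k W) {x y : MQ n} (hx : x ∈ Ex 𝔲) (hy : y ∈ Ex 𝔲) : x * y ∈ Ex 𝔲 := by
  obtain ⟨X, hX, rfl⟩ := hx
  obtain ⟨Y, hY, rfl⟩ := hy
  obtain ⟨Z, hZ, h1⟩ := h.grp X hX Y hY
  exact ⟨Z, hZ, h1⟩

theorem PW_ex_inv (h : FS P 𝔲 k W) {a : SLZ n} (ha : qg a ∈ Ex 𝔲) : qg a⁻¹ ∈ Ex 𝔲 := by
  obtain ⟨X, hX, h1⟩ := ha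
  refine ⟨-X, neg_mem hX, ?_⟩
  have h2 := PW_exp_neg h hX
  rw [← h1] at h2
  calc qg a⁻¹ = qg a⁻¹ * (qg a * IsNilpotent.exp (-X)) := by rw [h2, mul_one]
    _ = (qg a⁻¹ * qg a) * IsNilpotent.exp (-X) := by rw [mul_assoc]
    _ = _ := by rw [qg_inv_mul, one_mul]

theorem PW_one_ex : (1 : MQ n) ∈ Ex 𝔲 := ⟨0, zero_mem _, PW_exp0.symm⟩

/-- the lattice -/
def PW_L (h : FS P 𝔲 k W) (i : ℕ) (hi : 1 ≤ i) : AddSubgroup (MQ n) where
  carrier := {Y | Y ∈ fil W i ∧ ∃ a ∈ P, qg a ∈ Ex 𝔲 ∧ qg a - 1 - Y ∈ fil W (i + 1)}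
  zero_mem' := ⟨zero_mem _, 1, P.one_mem, by rw [qg_one]; exact PW_one_ex, by
    rw [qg_one, sub_self, sub_zero]; exact zero_mem _⟩
  add_mem' := by
    rintro Y Z ⟨hY, a, ha, ha1, ha2⟩ ⟨hZ, b, hb, hb1, hb2⟩
    refine ⟨add_mem hY hZ, a * b, P.mul_mem ha hb, ?_, ?_⟩
    · rw [qg_mul]
      exact PW_mul h ha1 hb1
    · rw [qg_mul]
      exact PW_mul_sub h.mono hi hY hZ ha2 hb2
  neg_mem' := by
    rintro Y ⟨hY, a, ha, ha1, ha2⟩
    refine ⟨neg_mem hY, a⁻¹, P.inv_mem ha, PW_ex_inv h ha1, ?_⟩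
    exact PW_inv_sub h.mono hi hY ha2 (PW_stab h (P.inv_mem ha)) (qg_mul_inv a)

theorem PW_L_stab (h : FS P 𝔲 k W) (i : ℕ) (hi : 1 ≤ i) {g : SLZ n} (hg : g ∈ P) {Y : MQ n}
    (hY : Y ∈ PW_L h i hi) : PW_Ad g Y ∈ PW_L h i hi := by
  obtain ⟨hY, a, ha, ha1, ha2⟩ := hY
  rw [PW_Ad_apply]
  refine ⟨PW_Ad_fil h hg hY, g * a * g⁻¹, P.mul_mem (P.mul_mem hg ha) (P.inv_mem hg), ?_, ?_⟩
  · rw [qg_mul, qg_mul]
    exact PW_conj h hg ha1
  · rw [qg_mul, qg_mul]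
    have h1 : qg g * qg a * qg g⁻¹ - 1 - qg g * Y * qg g⁻¹ = qg g * (qg a - 1 - Y) * qg g⁻¹ := by
      rw [mul_sub, mul_sub, sub_mul, sub_mul, mul_one, qg_mul_inv]
    rw [h1]
    exact PW_Ad_fil h hg ha2

/-- one step -/
theorem PW_step (hLC : LC_stmt) (hLG : LG_stmt) (h : FS P 𝔲 k W) (i : ℕ) (hi : 1 ≤ i) {Z : MQ n}
    (hZ : Z ∈ 𝔲) (hZi : Z ∈ fil W i) {g : SLZ n} (hg : g ∈ P) :
    ∃ j : ℕ, 1 ≤ j ∧ ∃ Z₁ ∈ 𝔲, Z₁ ∈ fil W (i + 1) ∧ ∃ g' ∈ P,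
      (IsNilpotent.exp Z * qg g) ^ j = IsNilpotent.exp Z₁ * qg g' := by
  obtain ⟨m, hm, c, hc, hcZ⟩ := h.lat Z hZ
  have hmZ : m • Z ∈ PW_L h i hi := by
    have h1 : m • Z = (m : ℚ) • Z := by rw [Nat.cast_smul_eq_nsmul]
    rw [h1]
    refine ⟨Submodule.smul_mem _ _ hZi, c, hc, ⟨_, Submodule.smul_mem _ _ hZ, hcZ⟩, ?_⟩
    rw [hcZ]
    exact PW_exp_sub h.mono hi (Submodule.smul_mem _ _ hZi) (PW_nil h (Submodule.smul_mem _ _ hZ))
  obtain ⟨j, hj, -, a, ha, ha1, ha2⟩ := hLC (MQ n) (PW_Ad g) (PW_Ad g⁻¹)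
    (by rw [PW_Ad_mul, mul_inv_cancel, PW_Ad_one]) (by rw [PW_Ad_mul, inv_mul_cancel, PW_Ad_one])
    (PW_integral g) (PW_integral g⁻¹) (PW_L h i hi) (fun x hx => PW_L_stab h i hi hg hx)
    (fun x hx => PW_L_stab h i hi (P.inv_mem hg) hx) Z m hm hmZ
  -- the product
  have hb : ∀ l : ℕ, ∃ b ∈ Ex 𝔲, (IsNilpotent.exp Z * qg g) ^ l = b * qg (g ^ l) ∧
      b - 1 - ∑ r ∈ Finset.range l, (PW_Ad g ^ r) Z ∈ fil W (i + 1) ∧
      ∑ r ∈ Finset.range l, (PW_Ad g ^ r) Z ∈ fil W i := by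
    intro l
    induction l with
    | zero =>
      refine ⟨1, PW_one_ex, ?_, ?_, ?_⟩
      · rw [pow_zero, pow_zero, qg_one, one_mul]
      · rw [Finset.sum_range_zero, sub_self, sub_zero]
        exact zero_mem _
      · rw [Finset.sum_range_zero]
        exact zero_mem _
    | succ l ih =>
      obtain ⟨b, hb1, hb2, hb3, hb4⟩ := ih
      have hgl : g ^ l ∈ P := P.pow_mem hg l
      have hAd : (PW_Ad g ^ l) Z = qg (g ^ l) * Z * qg (g ^ l)⁻¹ := by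
        rw [PW_Ad_pow, PW_Ad_apply]
      have hAf : (PW_Ad g ^ l) Z ∈ fil W i := by
        rw [hAd]
        exact PW_Ad_fil h hgl hZi
      refine ⟨b * (qg (g ^ l) * IsNilpotent.exp Z * qg (g ^ l)⁻¹),
        PW_mul h hb1 (PW_conj h hgl ⟨Z, hZ, rfl⟩), ?_, ?_, ?_⟩
      · rw [pow_succ, hb2, pow_succ, qg_mul (g ^ l) g]
        have : b * (qg (g ^ l) * IsNilpotent.exp Z * qg (g ^ l)⁻¹) * (qg (g ^ l) * qg g) =
            b * (qg (g ^ l) * IsNilpotent.exp Z * (qg (g ^ l)⁻¹ * qg (g ^ l)) * qg g) := by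
          noncomm_ring
        rw [this, qg_inv_mul, mul_one]
        noncomm_ring
      · rw [Finset.sum_range_succ]
        refine PW_mul_sub h.mono hi hb4 hAf hb3 ?_
        rw [← PW_exp_conj _ (PW_nil h hZ), hAd]
        refine PW_exp_sub h.mono hi (PW_Ad_fil h hgl hZi) (PW_nil h (h.conj _ hgl Z hZ))
      · rw [Finset.sum_range_succ]
        exact add_mem hb4 hAf
  obtain ⟨b, hb1, hb2, hb3, -⟩ := hb j
  have hc1 : b * qg a⁻¹ ∈ Ex 𝔲 := PW_mul h hb1 (PW_ex_inv h ha1)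
  have hc2 : b * qg a⁻¹ - 1 ∈ fil W (i + 1) := by
    have h1 : b * qg a⁻¹ - 1 = (b - qg a) * qg a⁻¹ := by
      rw [sub_mul, qg_mul_inv]
    rw [h1]
    have h2 : b - qg a ∈ fil W (i + 1) := by
      have h3 : b - qg a = (b - 1 - ∑ r ∈ Finset.range j, (PW_Ad g ^ r) Z) -
          (qg a - 1 - ∑ r ∈ Finset.range j, (PW_Ad g ^ r) Z) := by abel
      rw [h3]
      exact sub_mem hb3 ha2
    exact fil_mul (j := 0) h2 (PW_stab h (P.inv_mem ha))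
  obtain ⟨Z₁, hZ₁, hZ₁e⟩ := hc1
  obtain ⟨Q, hQ1, -, hQ3⟩ := hLG n
  refine ⟨j, hj, Z₁, hZ₁, ?_, a * g ^ j, P.mul_mem ha (P.pow_mem hg j), ?_⟩
  · have h1 := hQ3 Z₁ (PW_nil h hZ₁)
    rw [← h1, ← hZ₁e]
    exact PW_aeval h.mono hc2 Q hQ1
  · rw [hb2, ← hZ₁e, qg_mul]
    have : b * qg a⁻¹ * (qg a * qg (g ^ j)) = b * (qg a⁻¹ * qg a) * qg (g ^ j) := by noncomm_ring
    rw [this, qg_inv_mul, mul_one]

end main

theorem PW (hLC : LC_stmt) (hLG : UG.LG_stmt) (hEXJ : UG.EXJ_stmt) : PW_stmt := by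
  intro n P 𝔲 k W h X hX g hg
  have key : ∀ i : ℕ, ∃ M : ℕ, 1 ≤ M ∧ ∃ Z ∈ 𝔲, Z ∈ fil W (i + 1) ∧ ∃ g' ∈ P,
      (IsNilpotent.exp X * qg g) ^ M = IsNilpotent.exp Z * qg g' := by
    intro i
    induction i with
    | zero => exact ⟨1, le_refl 1, X, hX, PW_one h hX, g, hg, pow_one _⟩
    | succ i ih =>
      obtain ⟨M, hM, Z, hZ, hZi, g', hg', h1⟩ := ih
      obtain ⟨j, hj, Z₁, hZ₁, hZ₁i, g'', hg'', h2⟩ := PW_step hLC hLG h (i + 1) (by omega) hZ hZi hg'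
      refine ⟨M * j, Nat.mul_pos hM hj, Z₁, hZ₁, hZ₁i, g'', hg'', ?_⟩
      rw [pow_mul, h1, h2]
  obtain ⟨M, hM, Z, hZ, hZi, g', hg', h1⟩ := key k
  refine ⟨M, hM, g', hg', ?_⟩
  have h2 : Z = 0 := by
    have h3 := PW_fil_le h.mono (Nat.le_succ k) hZi
    rw [fil_bot h.bot h.top] at h3
    exact (Submodule.mem_bot ℚ).1 h3
  rw [h1, h2, PW_exp0, one_mul]

end Pool.Agent.BS
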